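import Pool.Agent.H629.CG.Stm

set_option autoImplicit false

namespace Pool.Agent.H249.CG.KREP

open MeasureTheory ProbabilityTheory Filter Topology Set Matrix
open Pool.Agent.H629.CG
open scoped ENNReal NNReal BigOperators MatrixOrder

instance (N : ℕ) : IsProbabilityMeasure (gam N) := by
  unfold gam
  infer_instance

/-- the characteristic function of the standard Gaussian law -/
lemma cf (N : ℕ) (s : Fin N → ℝ) :
    ∫ z, Complex.exp (((∑ k, s k * z k : ℝ) : ℂ) * Complex.I) ∂gam N =
      Complex.exp (-((∑ k, s k ^ 2 : ℝ) : ℂ) / 2) := by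
  have h1 : ∀ z : Fin N → ℝ, Complex.exp (((∑ k, s k * z k : ℝ) : ℂ) * Complex.I) =
      ∏ k, Complex.exp ((s k : ℂ) * (z k : ℂ) * Complex.I) := by
    intro z
    rw [← Complex.exp_sum]
    congr 1
    push_cast
    rw [Finset.sum_mul]
  simp_rw [h1]
  unfold gam
  rw [integral_fintype_prod_eq_prod (𝕜 := ℂ)
    (f := fun k (x : ℝ) => Complex.exp ((s k : ℂ) * (x : ℂ) * Complex.I))]
  have h2 : ∀ k, ∫ x, Complex.exp ((s k : ℂ) * (x : ℂ) * Complex.I) ∂(gaussianReal 0 1) =
      Complex.exp (-((s k ^ 2 : ℝ) : ℂ) / 2) := by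
    intro k
    rw [← charFun_apply_real, charFun_gaussianReal]
    congr 1
    push_cast
    ring
  simp_rw [h2]
  rw [← Complex.exp_sum]
  congr 1
  push_cast
  rw [← Finset.sum_div, ← Finset.sum_neg_distrib]

lemma measA {n N : ℕ} (m : Fin n → ℝ) (A : Fin n → Fin N → ℝ) :
    Measurable (fun (z : Fin N → ℝ) (i : Fin n) => m i + ∑ k, A i k * z k) := by
  fun_prop

/-- a continuous linear functional on `Fin n → ℝ` in coordinates -/
lemma dual_apply {n : ℕ} (L : StrongDual ℝ (Fin n → ℝ)) (y : Fin n → ℝ) :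
    L y = ∑ i, L (Pi.single i 1) * y i := by
  have := LinearMap.pi_apply_eq_sum_univ (L : (Fin n → ℝ) →ₗ[ℝ] ℝ) y
  simp only [ContinuousLinearMap.coe_coe, smul_eq_mul] at this
  rw [this]
  refine Finset.sum_congr rfl fun i _ => ?_
  rw [mul_comm]
  congr 2
  funext j
  by_cases h : i = j
  · subst h; simp
  · rw [if_neg h, Pi.single_eq_of_ne (Ne.symm h)]

lemma sq_expand {n N : ℕ} (A : Fin n → Fin N → ℝ) (t : Fin n → ℝ) :
    ∑ k, (∑ i, t i * A i k) ^ 2 = ∑ i, ∑ j, t i * t j * ∑ k, A i k * A j k := by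
  have e : ∀ k, (∑ i, t i * A i k) ^ 2 = ∑ i, ∑ j, t i * t j * (A i k * A j k) := by
    intro k
    rw [sq, Finset.sum_mul_sum]
    exact Finset.sum_congr rfl fun i _ => Finset.sum_congr rfl fun j _ => by ring
  simp_rw [e]
  rw [Finset.sum_comm]
  refine Finset.sum_congr rfl fun i _ => ?_
  rw [Finset.sum_comm]
  refine Finset.sum_congr rfl fun j _ => ?_
  rw [Finset.mul_sum]

/-- the characteristic functional of an affine image of the standard Gaussian law -/
lemma cfA {n N : ℕ} (m : Fin n → ℝ) (A : Fin n → Fin N → ℝ) (L : StrongDual ℝ (Fin n → ℝ)) :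
    charFunDual ((gam N).map (fun z (i : Fin n) => m i + ∑ k, A i k * z k)) L =
      Complex.exp (((∑ i, L (Pi.single i 1) * m i : ℝ) : ℂ) * Complex.I -
        ((∑ i, ∑ j, L (Pi.single i 1) * L (Pi.single j 1) * ∑ k, A i k * A j k : ℝ) : ℂ) / 2) := by
  rw [charFunDual_apply, integral_map (measA m A).aemeasurable (by fun_prop)]
  set t : Fin n → ℝ := fun i => L (Pi.single i 1) with ht
  have h1 : ∀ z : Fin N → ℝ, L (fun i : Fin n => m i + ∑ k, A i k * z k) =
      ∑ i, t i * m i + ∑ k, (∑ i, t i * A i k) * z k := by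
    intro z
    rw [dual_apply]
    simp_rw [mul_add, Finset.sum_add_distrib, Finset.mul_sum, Finset.sum_mul]
    congr 1
    rw [Finset.sum_comm]
    refine Finset.sum_congr rfl fun k _ => Finset.sum_congr rfl fun i _ => ?_
    ring
  have h2 : ∀ z : Fin N → ℝ, Complex.exp ((L (fun i : Fin n => m i + ∑ k, A i k * z k) : ℂ) *
      Complex.I) = Complex.exp (((∑ i, t i * m i : ℝ) : ℂ) * Complex.I) *
      Complex.exp (((∑ k, (∑ i, t i * A i k) * z k : ℝ) : ℂ) * Complex.I) := by
    intro z
    rw [h1, Complex.ofReal_add, add_mul, Complex.exp_add]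
  simp_rw [h2]
  rw [integral_const_mul, cf, sq_expand, ← Complex.exp_add]
  congr 1
  ring

theorem t_KREP : S_KREP := by
  intro n Ω _ P X hX
  have : IsProbabilityMeasure P := hX.isProbabilityMeasure
  have hmem : ∀ i, MemLp (X i) 2 P := fun i => (hX.eval i).memLp_two
  set R : Matrix (Fin n) (Fin n) ℝ := Matrix.of fun i j => cov[X i, X j; P] with hR
  have hRs : ∀ i j, R i j = R j i := by
    intro i j
    rw [hR]
    simp only [Matrix.of_apply]
    exact covariance_comm _ _
  have hq : ∀ t : Fin n → ℝ, Var[fun ω => ∑ i, t i * X i ω; P] =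
      ∑ i, ∑ j, t i * t j * R i j := by
    intro t
    rw [variance_fun_sum (fun i => (hmem i).const_mul (t i))]
    refine Finset.sum_congr rfl fun i _ => Finset.sum_congr rfl fun j _ => ?_
    rw [covariance_const_mul_left, covariance_const_mul_right, hR]
    simp only [Matrix.of_apply]
    ring
  have hpsd : R.PosSemidef := by
    refine Matrix.PosSemidef.of_dotProduct_mulVec_nonneg ?_ fun t => ?_
    · ext i j
      simp only [conjTranspose_apply, star_trivial]
      exact hRs j i
    · have e : star t ⬝ᵥ (R *ᵥ t) = ∑ i, ∑ j, t i * t j * R i j := by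
        simp only [dotProduct, mulVec, Pi.star_apply, star_trivial, Finset.mul_sum]
        exact Finset.sum_congr rfl fun i _ => Finset.sum_congr rfl fun j _ => by ring
      rw [e, ← hq]
      exact variance_nonneg _ _
  set B := CFC.sqrt R with hB
  have hBh : B.IsHermitian := (CFC.sqrt_nonneg R).isSelfAdjoint
  have hBB : B * B = R := CFC.sqrt_mul_sqrt_self _ hpsd.nonneg
  have hBT : ∀ i j, B i j = B j i := by
    intro i j
    have := hBh.apply j i
    simpa using this
  have hgram : ∀ i j, ∑ k, B i k * B j k = R i j := by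
    intro i j
    rw [← hBB, Matrix.mul_apply]
    refine Finset.sum_congr rfl fun k _ => ?_
    rw [hBT k j]
  refine ⟨fun i k => B i k, fun i j => ?_, ?_⟩
  · rw [hgram, hR]
    simp only [Matrix.of_apply]
  have : IsProbabilityMeasure (P.map (fun ω i => X i ω)) :=
    Measure.isProbabilityMeasure_map hX.aemeasurable
  have : IsProbabilityMeasure ((gam n).map
      (fun z (i : Fin n) => (∫ ω, X i ω ∂P) + ∑ k, B i k * z k)) :=
    Measure.isProbabilityMeasure_map (measA (fun i => ∫ ω, X i ω ∂P) (fun i k => B i k)).aemeasurable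
  apply Measure.ext_of_charFunDual
  ext L
  rw [cfA (fun i => ∫ ω, X i ω ∂P) (fun i k => B i k) L, hX.charFunDual_map_eq_fun]
  have hm : ∫ ω, L (fun i => X i ω) ∂P = ∑ i, L (Pi.single i 1) * ∫ ω, X i ω ∂P := by
    have e : ∀ ω, L (fun i => X i ω) = ∑ i, L (Pi.single i 1) * X i ω := fun ω => dual_apply _ _
    simp_rw [e]
    rw [integral_finsetSum _ fun i _ => ((hmem i).integrable (by norm_num)).const_mul _]
    exact Finset.sum_congr rfl fun i _ => integral_const_mul _ _
  have hv : Var[fun ω => L (fun i => X i ω); P] =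
      ∑ i, ∑ j, L (Pi.single i 1) * L (Pi.single j 1) * ∑ k, B i k * B j k := by
    have e : (fun ω => L (fun i => X i ω)) = fun ω => ∑ i, L (Pi.single i 1) * X i ω :=
      funext fun ω => dual_apply _ _
    rw [e, hq (fun i => L (Pi.single i 1))]
    simp_rw [hgram]
  rw [hm, hv]

theorem t_KUNIQ : S_KUNIQ := by
  intro n N M A B h
  have e : ∀ (K : ℕ) (C : Fin n → Fin K → ℝ), (fun (z : Fin K → ℝ) (i : Fin n) => ∑ k, C i k * z k) =
      fun (z : Fin K → ℝ) (i : Fin n) => (0 : ℝ) + ∑ k, C i k * z k := by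
    intro K C
    funext z i
    rw [zero_add]
  rw [e N A, e M B]
  have : IsProbabilityMeasure ((gam N).map (fun z (i : Fin n) => (0 : ℝ) + ∑ k, A i k * z k)) :=
    Measure.isProbabilityMeasure_map (measA (fun _ => (0 : ℝ)) A).aemeasurable
  have : IsProbabilityMeasure ((gam M).map (fun z (i : Fin n) => (0 : ℝ) + ∑ k, B i k * z k)) :=
    Measure.isProbabilityMeasure_map (measA (fun _ => (0 : ℝ)) B).aemeasurable
  apply Measure.ext_of_charFunDual
  ext L
  rw [cfA (fun _ => (0 : ℝ)) A L, cfA (fun _ => (0 : ℝ)) B L]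
  simp_rw [h]

end Pool.Agent.H249.CG.KREP
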